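import Pool.Agent.W770.StripB
import Pool.Agent.W770.StripC

set_option autoImplicit false

/-!
### Rogers's question Q1 has a negative answer

There is a compact plane set `E` of Lebesgue measure zero, containing a closed unit segment in
every direction, all of whose coverings by countably many strips have total width bounded below by
a positive constant.

`E` is the union of a compact Besicovitch set and of the compact null set of all points
`(x, x ^ 2 + k)`, `0 ≤ x ≤ 1`, `k ∈ K`, where `K` is the closure of the set of values of the jump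
function `k(t) = ∑ ⌊4 ^ j t⌋ / 8 ^ j`.  The image of the area measure under
`(x, t) ↦ (x, x ^ 2 + k(t))` gives to every strip a mass at most `C` times its width, because
`|k(t) - k(s)| ≥ (|t - s| / 4) ^ (3/2)` and `|t - s| ^ (-3/4)` is integrable.
-/

namespace Pool.Agent.Results.MP_6b55e5_an.RogersQ1

open MeasureTheory Pool.Agent.W770.StripA Pool.Agent.W770.StripB Pool.Agent.W770.StripC

/-- The Euclidean plane. -/
abbrev Plane : Type := EuclideanSpace ℝ (Fin 2)

/-- `S` is a closed strip of width `w > 0`: the closed set between the two parallel lines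
`⟪u, x⟫ = c` and `⟪u, x⟫ = c + w`, where `u` is a unit vector. -/
def IsStrip (S : Set Plane) (w : ℝ) : Prop :=
  0 < w ∧ ∃ (u : Plane) (c : ℝ), ‖u‖ = 1 ∧ S = {x | c ≤ inner ℝ u x ∧ inner ℝ u x ≤ c + w}

/-- A Besicovitch set: bounded, Lebesgue null, with a closed unit segment in every direction. -/
def IsBesicovitch (E : Set Plane) : Prop :=
  Bornology.IsBounded E ∧ volume E = 0 ∧
    ∀ e : Plane, ‖e‖ = 1 → ∃ x : Plane, segment ℝ x (x + e) ⊆ E

/-- the curved null set in the plane -/
def E2 : Set Plane := (fun z : ℝ × ℝ => (!₂[z.1, z.2] : Plane)) '' EE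

theorem E2_compact : IsCompact E2 := by
  apply EE_compact.image
  refine (PiLp.continuous_toLp 2 _).comp ?_
  refine continuous_pi (fun i => ?_)
  fin_cases i
  · simp; fun_prop
  · simp; fun_prop

theorem E2_null : volume E2 = 0 := by
  have hmp : MeasurePreserving (fun v : Plane => (v 0, v 1)) volume volume := by
    have h1 := PiLp.volume_preserving_ofLp (Fin 2)
    have h2 := volume_preserving_finTwoArrow ℝ
    exact h2.comp h1
  have e : E2 = (fun v : Plane => (v 0, v 1)) ⁻¹' EE := by
    ext v
    constructor
    · rintro ⟨z, hz, rfl⟩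
      simpa using hz
    · intro hv
      refine ⟨(v 0, v 1), hv, ?_⟩
      ext i
      fin_cases i <;> simp
  rw [e, hmp.measure_preimage EE_compact.isClosed.measurableSet.nullMeasurableSet]
  exact EE_null

/-- **Rogers's question Q1 has a negative answer.**  There are a (compact) Besicovitch set `E` and
`ε > 0` such that every finite or countable covering of `E` by strips has total width at least
`ε`. -/
theorem result : ∃ E : Set Plane, IsCompact E ∧ IsBesicovitch E ∧ ∃ ε : ℝ, 0 < ε ∧
    ∀ (ι : Type) [Countable ι] (S : ι → Set Plane) (w : ι → ℝ),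
      (∀ i, IsStrip (S i) (w i)) → (E ⊆ ⋃ i, S i) →
        ENNReal.ofReal ε ≤ ∑' i, ENNReal.ofReal (w i) := by
  obtain ⟨E1, hE1c, hE1⟩ := exists_compact
  refine ⟨E1 ∪ E2, hE1c.union E2_compact, ⟨(hE1c.union E2_compact).isBounded,
    measure_union_null hE1.2.1 E2_null, fun e he => ?_⟩, ?_⟩
  · obtain ⟨x, hx⟩ := hE1.2.2 e he
    exact ⟨x, hx.trans Set.subset_union_left⟩
  · -- the constant
    have hD0 : 1 + DD ≠ ⊤ := ENNReal.add_ne_top.2 ⟨ENNReal.one_ne_top, DD_ne_top⟩
    have hD1 : (1 + DD).toReal > 0 :=
      ENNReal.toReal_pos (by simp) hD0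
    refine ⟨1 / (1 + DD).toReal, by positivity, ?_⟩
    intro ι _ S w hS hcov
    choose hw u c hu hSu using hS
    have hb := cover_bound (fun i => u i 0) (fun i => u i 1) c w ?_ (fun i => (hw i).le) ?_
    · rw [one_div, ENNReal.ofReal_inv_of_pos hD1, ENNReal.ofReal_toReal hD0]
      rw [ENNReal.inv_le_iff_le_mul]
      · exact hb.trans (by gcongr; exact le_add_self)
      · intro _ h
        have : (1 : ENNReal) + DD = 0 := h
        simp at this
      · intro h _
        exact hD0 h
    · intro i
      have h := hu i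
      rw [EuclideanSpace.norm_eq, Real.sqrt_eq_one, Fin.sum_univ_two] at h
      simpa only [Real.norm_eq_abs, sq_abs] using h
    · intro t ht x hx
      have hmem : (!₂[x, x ^ 2 + kk t] : Plane) ∈ E1 ∪ E2 := by
        right
        refine ⟨(x, x ^ 2 + kk t), ⟨hx, ?_⟩, rfl⟩
        apply subset_closure
        exact ⟨t, ht, by simp⟩
      obtain ⟨i, hi⟩ := Set.mem_iUnion.1 (hcov hmem)
      refine ⟨i, ?_⟩
      rw [hSu i] at hi
      have e : inner ℝ (u i) (!₂[x, x ^ 2 + kk t] : Plane) = u i 0 * x + u i 1 * (x ^ 2 + kk t) := by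
        simp [PiLp.inner_apply, Fin.sum_univ_two]
        ring
      simp only [Set.mem_ofPred_eq, e] at hi
      exact hi

end Pool.Agent.Results.MP_6b55e5_an.RogersQ1
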